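import Mathlib
import Pool.Agent.TH69.NsDefs2

set_option autoImplicit false

/-!
# Groups of exponent `n` with nonsoluble finite subgroups, section R: subdirect products
-/

namespace Pool.Agent.TH69.Ns

namespace NsR

/-- the statement of `mem_EE_iff` -/
def MStmt (c n : ℕ) : Prop :=
  ∀ {Q : Type} [Group Q], Hy c n Q → (∀ e : Q, InO c ⊤ e → e = 1) → ∀ g : Q,
    g ∈ EE c Q ↔ ∀ T : Subgroup Q, Cp c T → ActsInn T g

/-- the statement of `exists_Cq` -/
def P1Stmt (c n : ℕ) : Prop :=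
  ∀ {K : Type} [Group K], Hy c n K →
    ∃ (Q : Type) (_ : Group Q) (f : K →* Q), Hy c n Q ∧ Cq c f

/-- the statement of `InF.iff` -/
def P2Stmt (c n : ℕ) : Prop :=
  ∀ {K Q : Type} [Group K] [Group Q], Hy c n K → ∀ {f : K →* Q},
    Cq c f → ∀ e : K, (InF c e ↔ f e ∈ EE c Q)

/-- the statement of `InF.acts` -/
def P3Stmt (c n : ℕ) : Prop :=
  ∀ {K P : Type} [Group K] [Group P], Hy c n K → ∀ g : K →* P,
    Function.Surjective g → ∀ {e : K}, InF c e → ∀ {T : Subgroup P}, Cp c T →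
      ActsInn T (g e)

/-- one side: the component commutes with the image of the kernel of `g` -/
theorem side {c n : ℕ} (hacts : P3Stmt c n) {A P Q : Type} [Group A] [Group P] [Group Q]
    (hA : Hy c n A) (g : A →* P) (hg : Function.Surjective g) (f : A →* Q)
    (hf : Function.Surjective f) {T : Subgroup Q} (hT : Cp c T) (hcm : Cm T (g.ker.map f))
    {e : A} (he : InF c (g e)) : ActsInn T (f e) := by
  have hNn : (g.ker.map f).Normal := Subgroup.Normal.map inferInstance f hf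
  obtain ⟨N, hN⟩ : ∃ N : Subgroup Q, N = g.ker.map f := ⟨_, rfl⟩
  rw [← hN] at hcm hNn
  -- `q` is injective on `T`
  let q : Q →* Q ⧸ N := QuotientGroup.mk' N
  have hqs : Function.Surjective q := QuotientGroup.mk'_surjective N
  have hqk : ∀ x : Q, q x = 1 ↔ x ∈ N := fun x => QuotientGroup.eq_one_iff x
  have hinj : ∀ x ∈ T, ∀ y ∈ T, q x = q y → x = y := by
    intro x hx y hy hxy
    have h1 : q (x⁻¹ * y) = 1 := by rw [map_mul, map_inv, hxy, inv_mul_cancel]
    have h2 : x⁻¹ * y ∈ N := (hqk _).1 h1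
    have h3 : x⁻¹ * y ∈ T := mul_mem (inv_mem hx) hy
    have h4 : x⁻¹ * y = 1 := centre_triv hT.2.1 hT.2.2.1 h3 fun t ht => (hcm t ht _ h2).symm
    exact inv_mul_eq_one.1 h4
  -- the component `q(T)`
  have hT' : Cp c (T.map q) := by
    refine ⟨Subgroup.IsSubnormal.map hqs hT.1, ?_⟩
    have hinj2 : Function.Injective (q.comp T.subtype) := by
      intro x y hxy
      exact Subtype.ext (hinj x x.2 y y.2 hxy)
    let e1 : T ≃* (q.comp T.subtype).range := MonoidHom.ofInjective hinj2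
    have hr : (q.comp T.subtype).range = T.map q := by
      rw [MonoidHom.range_eq_map, ← Subgroup.map_map, ← MonoidHom.range_eq_map,
        Subgroup.range_subtype]
    rw [← hr]
    obtain ⟨h1, h2⟩ := NsB.transport e1 hT.2.1 hT.2.2.1
    refine ⟨h1, h2, ?_⟩
    rw [← hT.2.2.2]
    exact (Nat.card_congr e1.toEquiv).symm
  -- the map `r`
  have hwd : ∀ a b : A, g a = g b → q (f a) = q (f b) := by
    intro a b hab
    have h1 : a⁻¹ * b ∈ g.ker := by
      rw [MonoidHom.mem_ker, map_mul, map_inv, hab, inv_mul_cancel]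
    have h2 : q (f (a⁻¹ * b)) = 1 := by
      rw [hqk, hN]
      exact Subgroup.mem_map_of_mem f h1
    rw [map_mul, map_mul, map_inv, map_inv] at h2
    exact inv_mul_eq_one.1 h2
  have hr : ∃ r : P →* Q ⧸ N, ∀ a, r (g a) = q (f a) := by
    choose s hs using hg
    refine ⟨MonoidHom.mk' (fun p => q (f (s p))) ?_, fun a => hwd _ _ (hs (g a))⟩
    intro p p'
    rw [← map_mul, ← map_mul]
    apply hwd
    rw [hs, map_mul, hs, hs]
  obtain ⟨r, hr⟩ := hr
  have hrs : Function.Surjective r := by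
    intro y
    obtain ⟨x, rfl⟩ := hqs y
    obtain ⟨a, rfl⟩ := hf x
    exact ⟨g a, hr a⟩
  obtain ⟨t', ⟨t, ht, rfl⟩, htt⟩ := hacts (hA.of_surj g hg) r hrs he hT'
  rw [hr] at htt
  have htt' : ∀ s ∈ T, q (f e * s * (f e)⁻¹) = q (t * s * t⁻¹) := by
    intro s hs
    have h1 := htt (q s) (Subgroup.mem_map_of_mem q hs)
    rw [map_mul, map_mul, map_inv, h1, map_mul, map_mul, map_inv]
  -- `f e` normalises `T`
  have hnorm : T.map (MulAut.conj (f e)).toMonoidHom = T := by
    rcases (hT.conj (f e)).eq_or_cm hT with h | h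
    · exact h
    · exfalso
      obtain ⟨a, b, hab⟩ := hT.2.2.1
      apply hab
      apply Subtype.ext
      refine hinj _ (a * b).2 _ (b * a).2 ?_
      have h1 := h (f e * (t⁻¹ * a * t) * (f e)⁻¹)
        ⟨t⁻¹ * a * t, mul_mem (mul_mem (inv_mem ht) a.2) ht, rfl⟩ b b.2
      have h2 := congrArg q h1
      rw [map_mul q _ (b : Q), map_mul q (b : Q) _,
        htt' (t⁻¹ * a * t) (mul_mem (mul_mem (inv_mem ht) a.2) ht)] at h2
      have h3 : t * (t⁻¹ * a * t) * t⁻¹ = (a : Q) := by group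
      rw [h3, ← map_mul, ← map_mul] at h2
      exact h2
  refine ⟨t, ht, fun s hs => ?_⟩
  have h1 : f e * s * (f e)⁻¹ ∈ T := by
    have h2 : f e * s * (f e)⁻¹ ∈ T.map (MulAut.conj (f e)).toMonoidHom := ⟨s, hs, rfl⟩
    rwa [hnorm] at h2
  exact hinj _ h1 _ (mul_mem (mul_mem ht hs) (inv_mem ht)) (htt' s hs)

theorem form_of {c n : ℕ} (hM : MStmt c n) (hP1 : P1Stmt c n) (hP2 : P2Stmt c n)
    (hP3 : P3Stmt c n) {A P₁ P₂ : Type} [Group A] [Group P₁] [Group P₂] (hA : Hy c n A)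
    (g₁ : A →* P₁) (g₂ : A →* P₂) (h₁ : Function.Surjective g₁) (h₂ : Function.Surjective g₂)
    (hker : ∀ x : A, g₁ x = 1 → g₂ x = 1 → x = 1) {e : A} (he₁ : InF c (g₁ e))
    (he₂ : InF c (g₂ e)) : InF c e := by
  obtain ⟨Q, _, f, hQ, hf⟩ := hP1 hA
  rw [hP2 hA hf, hM hQ hf.triv]
  intro T hT
  have hn1 : (g₁.ker.map f).Normal := Subgroup.Normal.map inferInstance f hf.surj
  have hn2 : (g₂.ker.map f).Normal := Subgroup.Normal.map inferInstance f hf.surj
  rcases le_or_cm T _ hT.1 hn1.isSubnormal hT.2.1 hT.2.2.1 with h | h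
  · rcases le_or_cm T _ hT.1 hn2.isSubnormal hT.2.1 hT.2.2.1 with h' | h'
    · exfalso
      obtain ⟨a, b, hab⟩ := hT.2.2.1
      obtain ⟨x, hx, hxa⟩ := h a.2
      obtain ⟨y, hy, hyb⟩ := h' b.2
      apply hab
      apply Subtype.ext
      have h3 : x * y * x⁻¹ * y⁻¹ = 1 := by
        apply hker
        · have h4 : g₁ x = 1 := hx
          rw [map_mul, map_mul, map_mul, map_inv, map_inv, h4]
          group
        · have h4 : g₂ y = 1 := hy
          rw [map_mul, map_mul, map_mul, map_inv, map_inv, h4]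
          group
      have h5 : x * y = y * x := by
        have h6 := mul_inv_eq_one.1 h3
        exact mul_inv_eq_iff_eq_mul.1 h6
      show (a : Q) * b = b * a
      rw [← hxa, ← hyb, ← map_mul, h5, map_mul]
    · exact side hP3 hA g₂ h₂ f hf.surj hT h' he₂
  · exact side hP3 hA g₁ h₁ f hf.surj hT h he₁

end NsR

end Pool.Agent.TH69.Ns
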